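import Pool.Agent.L0h83.HT.Base
import Pool.Agent.L0h89.HT.Pred3

/-! # HT, modules ZARC, ZFIX (helper83) -/

set_option autoImplicit false

namespace Pool.Agent.L0h83.HT

open Pool.Agent.L0h89.HT H984N MeasureTheory Filter Topology
open scoped ENNReal NNReal

/-- The reflection as a linear isometry. -/
noncomputable def rfL : ℂ ≃ₗᵢ[ℝ] ℂ := Complex.conjLIE.trans (LinearIsometryEquiv.neg ℝ)

theorem rfL_apply (z : ℂ) : rfL z = rf z := by
  show -(starRingEnd ℂ) z = rf z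
  unfold rf
  apply Complex.ext <;> simp

theorem rf_pre_vol {A : Set ℂ} (hA : MeasurableSet A) : volume (rf ⁻¹' A) = volume A := by
  have h1 := (LinearIsometryEquiv.measurePreserving rfL).measure_preimage hA.nullMeasurableSet
  have h2 : (rfL : ℂ → ℂ) = rf := funext rfL_apply
  rw [h2] at h1
  exact h1

theorem thick_rf (ρ : ℝ) (S : Set ℂ) :
    Metric.thickening ρ (rf '' S) = rf ⁻¹' Metric.thickening ρ S := by
  ext x
  rw [Set.mem_preimage, Metric.mem_thickening_iff, Metric.mem_thickening_iff]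
  constructor
  · rintro ⟨_, ⟨z, hz, rfl⟩, h⟩
    refine ⟨z, hz, ?_⟩
    rw [← rf_dist, rf_rf]
    exact h
  · rintro ⟨z, hz, h⟩
    refine ⟨rf z, ⟨z, hz, rfl⟩, ?_⟩
    rw [← rf_dist, rf_rf]
    exact h

theorem tau_img {L : ℝ} (hT : S_TAU) (hL : 1 ≤ L) (s t : unitInterval) :
    tau L '' Set.Icc s t = Set.Icc (tau L t) (tau L s) := by
  ext x
  constructor
  · rintro ⟨u, hu, rfl⟩
    exact ⟨(tau_le hT hL _ _).2 hu.2, (tau_le hT hL _ _).2 hu.1⟩
  · intro hx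
    have h2 : x ∈ Set.range (tau L) := by
      rw [(hT L hL).2.2.1]
      exact ⟨(tau_one_le hT hL t).trans hx.1, x.2.2⟩
    obtain ⟨u, rfl⟩ := h2
    exact ⟨u, ⟨(tau_le hT hL _ _).1 hx.2, (tau_le hT hL _ _).1 hx.1⟩, rfl⟩

theorem tau_diff {L : ℝ} (hT : S_TAU) (hL : 1 ≤ L) (s t : unitInterval) :
    L * ((tau L s : ℝ) - tau L t) = (t : ℝ) - s := by
  have h := (hT L hL).1
  have hL0 : 0 < L := by linarith
  rw [h, h]
  field_simp
  ring

theorem t_arc (hT : S_TAU) : T_Arc := by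
  intro c C f p hc hC hR h
  obtain ⟨hp0, hp1⟩ := rev_one hR
  unfold Arc at h ⊢
  filter_upwards [h] with ρ hρ s t hst hl
  change C * ρ ^ (7/4 : ℝ) * Real.log (1 / ρ) ≤ 1 * ((t : ℝ) - s) at hl
  show c * (1 * ((t : ℝ) - s)) * ρ ^ (1/4 : ℝ) ≤
        (volume (Metric.thickening ρ (f '' Set.Icc s t))).toReal ∧
      (volume (Metric.thickening ρ (f '' Set.Icc s t))).toReal ≤
        C * (1 * ((t : ℝ) - s)) * ρ ^ (1/4 : ℝ)
  have h1 := hρ (tau p.2 t) (tau p.2 s) ((tau_le hT hp1 _ _).2 hst)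
  rw [tau_diff hT hp1] at h1
  rw [one_mul] at hl ⊢
  have h2 := h1 hl
  have e : f '' Set.Icc s t = rf '' (p.1 '' Set.Icc (tau p.2 t) (tau p.2 s)) := by
    rw [← tau_img hT hp1, Set.image_image, Set.image_image]
    exact Set.image_congr fun u _ => f_eq1 hT hR u
  rw [e, thick_rf, rf_pre_vol Metric.isOpen_thickening.measurableSet]
  exact h2

theorem t_fix (hT : S_TAU) : T_Fix := by
  intro f p ρ hρ S d hR hf hS hd
  obtain ⟨hp0, hp1⟩ := rev_one hR
  have key : ∀ s : unitInterval, f s ∈ S → p.1 (tau p.2 s) ∈ rf ⁻¹' S ∩ (Sq ρ hρ).D := by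
    intro s hs
    have h1 := f_eq1 hT hR s
    have h2 : p.1 (tau p.2 s) = rf (f s) := by rw [h1, rf_rf]
    have h3 : ‖f s‖ < ρ / 2 := lt_of_le_of_lt (f.norm_coe_le_norm s) hf
    have h4 := Complex.abs_re_le_norm (f s)
    have h5 := Complex.abs_im_le_norm (f s)
    have h6 : 0 < (f s).im := hS hs
    have h7 := abs_le.1 h4
    have h8 := abs_le.1 h5
    refine ⟨?_, ?_⟩
    · rw [Set.mem_preimage, ← h1]
      exact hs
    · rw [h2]
      show -ρ < (rf (f s)).re ∧ (rf (f s)).re < ρ ∧ 0 < (rf (f s)).im ∧ (rf (f s)).im < ρ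
      unfold rf
      refine ⟨?_, ?_, ?_, ?_⟩ <;> dsimp only <;> linarith [h7.1, h7.2, h8.1, h8.2]
  refine ⟨?_, ?_⟩
  · rw [← (hT p.2 hp1).2.2.2.2.2 {s | f s ∈ S}]
    refine (dimH_mono ?_).trans hd
    rintro _ ⟨s, hs, rfl⟩
    exact key s hs
  · intro h s hs
    exact h _ (key s hs)

end Pool.Agent.L0h83.HT
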