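import Pool.Agent.L0h83.HT.Base

/-! # HT, module ZAVT (helper83) -/

set_option autoImplicit false

namespace Pool.Agent.L0h83.HT

open Pool.Agent.L0h89.HT H984N MeasureTheory Filter Topology
open scoped ENNReal NNReal

theorem t_avt (hT : S_TAU) : T_Avt := by
  intro A f p hR h
  obtain ⟨hp0, hp1⟩ := rev_one hR
  unfold Avt at h ⊢
  filter_upwards [ae_pre hT hp1 h] with t ht
  filter_upwards [ht] with j hj
  refine lt_of_le_of_lt ?_ hj
  have hA : MeasurableSet {u : unitInterval | dist (p.1 u) (p.1 (tau p.2 t)) ≤ ((1:ℝ)/2) ^ j} :=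
    (isClosed_le (by fun_prop) continuous_const).measurableSet
  have e : {u : unitInterval | dist (f u) (f t) ≤ ((1:ℝ)/2) ^ j} =
      tau p.2 ⁻¹' {u : unitInterval | dist (p.1 u) (p.1 (tau p.2 t)) ≤ ((1:ℝ)/2) ^ j} := by
    ext u
    simp only [Set.mem_ofPred_eq, Set.mem_preimage]
    rw [dist_eq1 hT hR]
  show (1 : ℝ) * (volume {u : unitInterval | dist (f u) (f t) ≤ ((1:ℝ)/2) ^ j}).toReal ≤ _
  rw [e, vol_pre hT hp1 hA, one_mul, ENNReal.toReal_mul, ENNReal.toReal_ofReal hp0.le]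
  refine mul_le_mul_of_nonneg_left ?_ hp0.le
  exact ENNReal.toReal_mono (measure_ne_top _ _) (measure_mono Set.inter_subset_left)

end Pool.Agent.L0h83.HT
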