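import Pool.Agent.L0h89.HT.Pred

/-! # HT (helper83): common lemmas for the transfer modules -/

set_option autoImplicit false

namespace Pool.Agent.L0h83.HT

open Pool.Agent.L0h89.HT H984N MeasureTheory Filter Topology
open scoped ENNReal NNReal

theorem rf_dist (z w : ℂ) : dist (rf z) (rf w) = dist z w := by
  rw [Complex.dist_eq_re_im, Complex.dist_eq_re_im]
  congr 1
  unfold rf
  dsimp only
  ring

theorem rf_isometry : Isometry rf := Isometry.of_dist_eq rf_dist

theorem rf_rf (z : ℂ) : rf (rf z) = z := by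
  unfold rf
  apply Complex.ext <;> simp

section
variable {L : ℝ}

theorem tau_le (hT : S_TAU) (hL : 1 ≤ L) (s t : unitInterval) : tau L s ≤ tau L t ↔ t ≤ s := by
  have h := (hT L hL).1
  rw [← Subtype.coe_le_coe, ← Subtype.coe_le_coe, h, h]
  have hL0 : 0 < L := by linarith
  constructor
  · intro h1
    have h2 : (t : ℝ) / L ≤ s / L := by linarith
    exact (div_le_div_iff_of_pos_right hL0).1 h2
  · intro h1
    have h2 : (t : ℝ) / L ≤ s / L := div_le_div_of_nonneg_right h1 hL0.le
    linarith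

theorem tau_lt (hT : S_TAU) (hL : 1 ≤ L) (s t : unitInterval) : tau L s < tau L t ↔ t < s := by
  rw [← not_le, ← not_le, tau_le hT hL]

theorem tau_one_le (hT : S_TAU) (hL : 1 ≤ L) (s : unitInterval) : tau L 1 ≤ tau L s :=
  (tau_le hT hL 1 s).2 s.2.2

theorem tau_cont : Continuous (tau L) := by
  unfold tau
  exact continuous_projIcc.comp (by fun_prop)

theorem tau_abs (hT : S_TAU) (hL : 1 ≤ L) (s t : unitInterval) :
    L * |(tau L s : ℝ) - tau L t| = |(s : ℝ) - t| := by
  have h := (hT L hL).1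
  have hL0 : 0 < L := by linarith
  rw [h, h]
  have e : (1 - (s : ℝ) / L) - (1 - t / L) = -((s - t) / L) := by ring
  rw [e, abs_neg, abs_div, abs_of_pos hL0]
  field_simp

/-- the volume of a preimage -/
theorem vol_pre (hT : S_TAU) (hL : 1 ≤ L) {A : Set unitInterval} (hA : MeasurableSet A) :
    volume (tau L ⁻¹' A) = ENNReal.ofReal L * volume (A ∩ Set.Icc (tau L 1) 1) := by
  have h := (hT L hL).2.2.2.1
  have h1 : (volume : Measure unitInterval).map (tau L) A = volume (tau L ⁻¹' A) :=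
    Measure.map_apply tau_cont.measurable hA
  rw [← h1, h, Measure.smul_apply, Measure.restrict_apply hA, smul_eq_mul]

/-- almost every time comes from a good time -/
theorem ae_pre (hT : S_TAU) (hL : 1 ≤ L) {P : unitInterval → Prop}
    (h : ∀ᵐ t : unitInterval, P t) : ∀ᵐ t : unitInterval, P (tau L t) := by
  obtain ⟨A, hA1, hA2, hA3⟩ := exists_measurable_superset_of_null (ae_iff.1 h)
  rw [ae_iff]
  refine measure_mono_null (t := tau L ⁻¹' A) (fun t ht => hA1 ht) ?_
  rw [vol_pre hT hL hA2]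
  rw [measure_mono_null Set.inter_subset_left hA3, mul_zero]

end

section
variable {lam : ℝ} {f : C(unitInterval, ℂ)} {p : X}

theorem f_eq (hT : S_TAU) (h : Rev lam f p) (s : unitInterval) :
    f s = (lam : ℂ) * rf (p.1 (tau (lam ^ (7/4 : ℝ) * p.2) s)) :=
  h.2.2 s _ ((hT _ h.2.1).1 s)

theorem rev_one (h : Rev 1 f p) : 0 < p.2 ∧ 1 ≤ p.2 := by
  have h1 := h.2.1
  rw [Real.one_rpow, one_mul] at h1
  exact ⟨h.1, h1⟩

theorem f_eq1 (hT : S_TAU) (h : Rev 1 f p) (s : unitInterval) : f s = rf (p.1 (tau p.2 s)) := by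
  have h1 := f_eq hT h s
  rw [Real.one_rpow, one_mul, Complex.ofReal_one, one_mul] at h1
  exact h1

theorem dist_eq1 (hT : S_TAU) (h : Rev 1 f p) (s t : unitInterval) :
    dist (f s) (f t) = dist (p.1 (tau p.2 s)) (p.1 (tau p.2 t)) := by
  rw [f_eq1 hT h, f_eq1 hT h, rf_dist]

end

end Pool.Agent.L0h83.HT
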