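import Pool.Agent.L0h83.HT.Base

/-! # HT, module ZGAU (helper83) -/

set_option autoImplicit false

namespace Pool.Agent.L0h83.HT

open Pool.Agent.L0h89.HT H984N MeasureTheory Filter Topology
open scoped ENNReal NNReal

theorem mk_rf (m : ℝ≥0∞ → ℝ≥0∞) (S : Set ℂ) :
    Measure.mkMetric m (rf '' S) = Measure.mkMetric m S := by
  have h1 := OuterMeasure.isometry_comap_mkMetric m rf_isometry (Or.inr (fun z => ⟨rf z, rf_rf z⟩))
  rw [← OuterMeasure.coe_mkMetric, ← OuterMeasure.comap_apply, h1]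

theorem t_gau (hT : S_TAU) : T_Gau := by
  intro c C f p hc hC hR h S
  obtain ⟨hp0, hp1⟩ := rev_one hR
  have h1 := h (tau p.2 '' S)
  have e : f '' S = rf '' (p.1 '' (tau p.2 '' S)) := by
    rw [Set.image_image, Set.image_image]
    exact Set.image_congr fun s _ => f_eq1 hT hR s
  have hv := (hT p.2 hp1).2.2.2.2.1 S
  have key : ∀ a : ℝ, 0 < a → ENNReal.ofReal (a * p.2) * volume (tau p.2 '' S) =
      ENNReal.ofReal (a * 1) * volume S := by
    intro a ha
    rw [hv, ← mul_assoc, ← ENNReal.ofReal_mul (by positivity)]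
    congr 2
    field_simp
  rw [key c hc, key C hC] at h1
  show ENNReal.ofReal (c * 1) * volume S ≤ Measure.mkMetric gauge (f '' S) ∧
    Measure.mkMetric gauge (f '' S) ≤ ENNReal.ofReal (C * 1) * volume S
  rw [e, mk_rf]
  exact h1

end Pool.Agent.L0h83.HT
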