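import Pool.Agent.L0h83.HT.Base

/-! # HT, module ZLIL (helper83) -/

set_option autoImplicit false

namespace Pool.Agent.L0h83.HT

open Pool.Agent.L0h89.HT H984N MeasureTheory Filter Topology
open scoped ENNReal NNReal

theorem tau_inj {L : ℝ} (hT : S_TAU) (hL : 1 ≤ L) : Function.Injective (tau L) := by
  intro s t h
  apply le_antisymm
  · exact (tau_le hT hL t s).1 h.symm.le
  · exact (tau_le hT hL s t).1 h.le

theorem tau_emb {L : ℝ} (hT : S_TAU) (hL : 1 ≤ L) : IsEmbedding (tau L) :=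
  (tau_cont.isClosedEmbedding (tau_inj hT hL)).isEmbedding

theorem map_nhds_tau {L : ℝ} (hT : S_TAU) (hL : 1 ≤ L) {t : unitInterval} (ht : t ≠ 1) :
    map (tau L) (𝓝 t) = 𝓝 (tau L t) := by
  refine (tau_emb hT hL).map_nhds_of_mem t ?_
  rw [(hT L hL).2.2.1]
  have h1 : t < 1 := lt_of_le_of_ne t.2.2 ht
  have h2 : tau L 1 < tau L t := (tau_lt hT hL 1 t).2 h1
  filter_upwards [Ioi_mem_nhds h2] with x hx
  exact ⟨le_of_lt hx, x.2.2⟩

theorem ae_ne_one : ∀ᵐ t : unitInterval, t ≠ 1 := by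
  rw [ae_iff]
  have : {a : unitInterval | ¬ a ≠ 1} = {1} := by
    ext a
    simp
  rw [this]
  exact measure_singleton _

theorem t_lil (hT : S_TAU) : T_LIL := by
  intro c C f p hc hC hR h
  obtain ⟨hp0, hp1⟩ := rev_one hR
  unfold LIL at h ⊢
  filter_upwards [ae_pre hT hp1 h, ae_ne_one] with t ht h1
  rw [← map_nhds_tau hT hp1 h1, eventually_map, frequently_map] at ht
  have e : ∀ s : unitInterval, p.2 * |(tau p.2 s : ℝ) - tau p.2 t| = 1 * |(s : ℝ) - t| := by
    intro s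
    rw [tau_abs hT hp1, one_mul]
  refine ⟨?_, ?_⟩
  · filter_upwards [ht.1] with s hs
    rw [dist_eq1 hT hR, ← e]
    exact hs
  · refine ht.2.mono fun s hs => ?_
    rw [dist_eq1 hT hR, ← e]
    exact hs

theorem t_chu (hT : S_TAU) : T_Chu := by
  intro c C f p hc hC hR h
  obtain ⟨hp0, hp1⟩ := rev_one hR
  have e : ∀ s t : unitInterval, p.2 * |(tau p.2 s : ℝ) - tau p.2 t| = 1 * |(s : ℝ) - t| := by
    intro s t
    rw [tau_abs hT hp1, one_mul]
  unfold Chu at h ⊢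
  filter_upwards [ae_pre hT hp1 h, ae_ne_one] with t ht h1
  refine ⟨?_, ?_⟩
  · filter_upwards [ht.1] with h hh s hs
    obtain ⟨x, hx, hx1⟩ := hh (tau p.2 s) (by rw [e]; exact hs)
    have hx2 : x ∈ tau p.2 '' Set.uIcc s t := by
      have h2 : x ∈ Set.range (tau p.2) := by
        rw [(hT p.2 hp1).2.2.1]
        refine ⟨?_, x.2.2⟩
        refine le_trans ?_ hx.1
        exact le_inf (tau_one_le hT hp1 _) (tau_one_le hT hp1 _)
      obtain ⟨y, hy⟩ := h2
      refine ⟨y, ?_, hy⟩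
      rw [← hy] at hx
      rw [Set.mem_uIcc] at hx ⊢
      simp only [tau_le hT hp1] at hx
      rcases hx with hx | hx
      · right; exact ⟨hx.2, hx.1⟩
      · left; exact ⟨hx.2, hx.1⟩
    obtain ⟨y, hy, hy1⟩ := hx2
    refine ⟨y, hy, ?_⟩
    rw [dist_eq1 hT hR, hy1]
    exact hx1
  · refine ht.2.mono fun h hh s hs => ?_
    rw [dist_eq1 hT hR]
    exact hh _ (by rw [e]; exact hs)

end Pool.Agent.L0h83.HT
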