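import Pool.Agent.L0h83.HT.Base

/-! # HT, module ZOCC (helper83) -/

set_option autoImplicit false

namespace Pool.Agent.L0h83.HT

open Pool.Agent.L0h89.HT H984N MeasureTheory Filter Topology
open scoped ENNReal NNReal

theorem rf_re (a b : ℂ) : dist (rf a) b = dist a (rf b) := by
  rw [← rf_dist, rf_rf]

/-- comparison of the logarithms -/
theorem log_cmp {lam r : ℝ} (hl : 0 < lam) (hr : 0 < r) (h : r < Real.exp (-(2 * |Real.log lam|))) :
    0 < Real.log (1 / r) ∧
    1 / 2 * Real.log (1 / r) ^ (1/8 : ℝ) ≤ Real.log (1 / (r / lam)) ^ (1/8 : ℝ) ∧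
    Real.log (1 / (r / lam)) ^ (1/8 : ℝ) ≤ 2 * Real.log (1 / r) ^ (1/8 : ℝ) := by
  have h1 : Real.log r < -(2 * |Real.log lam|) := (Real.log_lt_iff_lt_exp hr).2 h
  have h2 : Real.log (1 / r) = - Real.log r := by rw [one_div, Real.log_inv]
  have h3 : Real.log (1 / (r / lam)) = Real.log lam + Real.log (1 / r) := by
    rw [one_div_div, Real.log_div hl.ne' hr.ne', h2]
    ring
  have h4 : 2 * |Real.log lam| < Real.log (1 / r) := by rw [h2]; linarith
  have h5 := abs_nonneg (Real.log lam)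
  have h6 := neg_abs_le (Real.log lam)
  have h7 := le_abs_self (Real.log lam)
  have h8 : 0 < Real.log (1 / r) := by linarith
  have h9 : 1 / 2 * Real.log (1 / r) ≤ Real.log (1 / (r / lam)) := by rw [h3]; linarith
  have h10 : Real.log (1 / (r / lam)) ≤ 2 * Real.log (1 / r) := by rw [h3]; linarith
  refine ⟨h8, ?_, ?_⟩
  · calc 1 / 2 * Real.log (1 / r) ^ (1/8 : ℝ)
        ≤ (1 / 2) ^ (1/8 : ℝ) * Real.log (1 / r) ^ (1/8 : ℝ) := by
          refine mul_le_mul_of_nonneg_right ?_ (Real.rpow_nonneg h8.le _)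
          exact Real.self_le_rpow_of_le_one (by norm_num) (by norm_num) (by norm_num)
      _ = (1 / 2 * Real.log (1 / r)) ^ (1/8 : ℝ) := by
          rw [Real.mul_rpow (by norm_num) h8.le]
      _ ≤ _ := Real.rpow_le_rpow (by positivity) h9 (by norm_num)
  · calc Real.log (1 / (r / lam)) ^ (1/8 : ℝ)
        ≤ (2 * Real.log (1 / r)) ^ (1/8 : ℝ) := by
          refine Real.rpow_le_rpow ?_ h10 (by norm_num)
          linarith
      _ = 2 ^ (1/8 : ℝ) * Real.log (1 / r) ^ (1/8 : ℝ) := by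
          rw [Real.mul_rpow (by norm_num) h8.le]
      _ ≤ 2 * Real.log (1 / r) ^ (1/8 : ℝ) := by
          refine mul_le_mul_of_nonneg_right ?_ (Real.rpow_nonneg h8.le _)
          exact Real.rpow_le_self_of_one_le (by norm_num) (by norm_num)

theorem pow_cmp {lam r : ℝ} (hl : 0 < lam) (hr : 0 < r) :
    lam ^ (7/4 : ℝ) * (r / lam) ^ (7/4 : ℝ) = r ^ (7/4 : ℝ) := by
  rw [← Real.mul_rpow hl.le (by positivity)]
  congr 1
  field_simp

theorem dist_rev {lam : ℝ} {f : C(unitInterval, ℂ)} {p : X} (hT : S_TAU) (hl : 0 < lam)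
    (hR : Rev lam f p) (s : unitInterval) (z' : ℂ) :
    dist (f s) ((lam : ℂ) * rf z') = lam * dist (p.1 (tau (lam ^ (7/4 : ℝ) * p.2) s)) z' := by
  rw [f_eq hT hR, dist_eq_norm, ← mul_sub, norm_mul, Complex.norm_real, Real.norm_eq_abs,
    abs_of_pos hl, ← dist_eq_norm, rf_dist]

theorem t_occ (hT : S_TAU) : T_Occ := by
  intro c C hc hC
  refine ⟨c / 2, 2 * C, by positivity, by positivity, ?_⟩
  intro lam f p hl hR h a b hab
  have hL := hR.2.1
  have hp0 := hR.1
  set L : ℝ := lam ^ (7/4 : ℝ) * p.2 with hLdef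
  have hL0 : 0 < L := by linarith
  have hlp : 0 < lam ^ (7/4 : ℝ) := Real.rpow_pos_of_pos hl _
  obtain ⟨r0, hr0, hh⟩ := h (tau L b) (tau L a) ((tau_lt hT hL _ _).2 hab)
  refine ⟨min (lam * r0) (Real.exp (-(2 * |Real.log lam|))),
    lt_min (mul_pos hl hr0) (Real.exp_pos _), ?_⟩
  intro r hr hr1
  obtain ⟨hg1, hg2, hg3⟩ := log_cmp hl hr (lt_of_lt_of_le hr1 (min_le_right _ _))
  have hr2 : r / lam < r0 := by
    rw [div_lt_iff₀ hl, mul_comm]
    exact lt_of_lt_of_le hr1 (min_le_left _ _)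
  obtain ⟨h1, h2⟩ := hh (r / lam) (by positivity) hr2
  have hpw := pow_cmp hl hr
  have hdi : ∀ (s : unitInterval) (z' : ℂ), dist (f s) ((lam : ℂ) * rf z') ≤ r ↔
      dist (p.1 (tau L s)) z' ≤ r / lam := by
    intro s z'
    rw [dist_rev hT hl hR, le_div_iff₀ hl, mul_comm]
  refine ⟨?_, ?_⟩
  · obtain ⟨z', hz'⟩ := h1
    refine ⟨(lam : ℂ) * rf z', ?_⟩
    have e : {s : unitInterval | (a ≤ s ∧ s ≤ b) ∧ dist (f s) ((lam : ℂ) * rf z') ≤ r} =
        tau L ⁻¹' {u : unitInterval | (tau L b ≤ u ∧ u ≤ tau L a) ∧ dist (p.1 u) z' ≤ r / lam} := by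
      ext s
      simp only [Set.mem_ofPred_eq, Set.mem_preimage]
      rw [tau_le hT hL, tau_le hT hL, hdi]
      tauto
    have hA : MeasurableSet
        {u : unitInterval | (tau L b ≤ u ∧ u ≤ tau L a) ∧ dist (p.1 u) z' ≤ r / lam} := by
      have c1 : IsClosed {u : unitInterval | tau L b ≤ u} :=
        isClosed_le continuous_const continuous_id
      have c2 : IsClosed {u : unitInterval | u ≤ tau L a} :=
        isClosed_le continuous_id continuous_const
      have c3 : IsClosed {u : unitInterval | dist (p.1 u) z' ≤ r / lam} :=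
        isClosed_le (by fun_prop) continuous_const
      exact ((c1.inter c2).inter c3).measurableSet
    have e2 : {u : unitInterval | (tau L b ≤ u ∧ u ≤ tau L a) ∧ dist (p.1 u) z' ≤ r / lam} ∩
        Set.Icc (tau L 1) 1 =
        {u : unitInterval | (tau L b ≤ u ∧ u ≤ tau L a) ∧ dist (p.1 u) z' ≤ r / lam} := by
      refine Set.inter_eq_left.2 ?_
      intro u hu
      exact ⟨(tau_one_le hT hL b).trans hu.1.1, u.2.2⟩
    show c / 2 * (r ^ (7/4 : ℝ) * Real.log (1 / r) ^ (1/8 : ℝ)) ≤ 1 * (volume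
      {s : unitInterval | (a ≤ s ∧ s ≤ b) ∧ dist (f s) ((lam : ℂ) * rf z') ≤ r}).toReal
    rw [e, vol_pre hT hL hA, e2, one_mul, ENNReal.toReal_mul, ENNReal.toReal_ofReal hL0.le, hLdef,
      mul_assoc]
    refine le_trans ?_ (mul_le_mul_of_nonneg_left hz' hlp.le)
    have e3 : lam ^ (7/4 : ℝ) * (c * ((r / lam) ^ (7/4 : ℝ) *
        Real.log (1 / (r / lam)) ^ (1/8 : ℝ))) =
        c * (r ^ (7/4 : ℝ) * Real.log (1 / (r / lam)) ^ (1/8 : ℝ)) := by
      rw [← hpw]; ring
    rw [e3]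
    have h5 := mul_le_mul_of_nonneg_left hg2 (mul_nonneg hc.le (Real.rpow_nonneg hr.le (7/4 : ℝ)))
    linarith
  · intro z
    set z' : ℂ := rf ((lam : ℂ)⁻¹ * z) with hz'
    have hz : (lam : ℂ) * rf z' = z := by
      rw [hz', rf_rf, mul_inv_cancel_left₀]
      exact_mod_cast hl.ne'
    have e : {s : unitInterval | dist (f s) z ≤ r} =
        tau L ⁻¹' {u : unitInterval | dist (p.1 u) z' ≤ r / lam} := by
      ext s
      simp only [Set.mem_ofPred_eq, Set.mem_preimage]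
      rw [← hdi, hz]
    have hA : MeasurableSet {u : unitInterval | dist (p.1 u) z' ≤ r / lam} :=
      (isClosed_le (by fun_prop) continuous_const).measurableSet
    show 1 * (volume {s : unitInterval | dist (f s) z ≤ r}).toReal ≤
      2 * C * (r ^ (7/4 : ℝ) * Real.log (1 / r) ^ (1/8 : ℝ))
    rw [e, vol_pre hT hL hA, one_mul, ENNReal.toReal_mul, ENNReal.toReal_ofReal hL0.le]
    have h3 : (volume ({u : unitInterval | dist (p.1 u) z' ≤ r / lam} ∩
        Set.Icc (tau L 1) 1)).toReal ≤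
        (volume {u : unitInterval | dist (p.1 u) z' ≤ r / lam}).toReal :=
      ENNReal.toReal_mono (measure_ne_top _ _) (measure_mono Set.inter_subset_left)
    refine (mul_le_mul_of_nonneg_left h3 hL0.le).trans ?_
    rw [hLdef, mul_assoc]
    refine (mul_le_mul_of_nonneg_left (h2 z') hlp.le).trans ?_
    have e3 : lam ^ (7/4 : ℝ) * (C * ((r / lam) ^ (7/4 : ℝ) *
        Real.log (1 / (r / lam)) ^ (1/8 : ℝ))) =
        C * (r ^ (7/4 : ℝ) * Real.log (1 / (r / lam)) ^ (1/8 : ℝ)) := by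
      rw [← hpw]; ring
    rw [e3]
    have h5 := mul_le_mul_of_nonneg_left hg3 (mul_nonneg hC.le (Real.rpow_nonneg hr.le (7/4 : ℝ)))
    linarith

end Pool.Agent.L0h83.HT
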