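import Pool.Agent.L0h89.HT.StmL

/-! # HT, module SCL (helper83) -/

set_option autoImplicit false

namespace Pool.Agent.L0h83.HT

open Pool.Agent.L0h89.HT H984N MeasureTheory Filter Topology

/-- The rescaled curve, with the parameter in `ℝ`. -/
noncomputable def gS (q : C(unitInterval, ℂ) × ℝ) : C(unitInterval, ℂ) where
  toFun s := ((((max q.2 (1/2)) ^ (-(4/7) : ℝ) : ℝ)) : ℂ) *
    q.1 (Set.projIcc 0 1 zero_le_one q.2 * s)
  continuous_toFun := by fun_prop

theorem gS_cont : Continuous gS := by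
  refine ContinuousMap.continuous_of_continuous_uncurry _ ?_
  show Continuous fun x : (C(unitInterval, ℂ) × ℝ) × unitInterval =>
    ((((max x.1.2 (1/2)) ^ (-(4/7) : ℝ) : ℝ)) : ℂ) *
      x.1.1 (Set.projIcc 0 1 zero_le_one x.1.2 * x.2)
  have h1 : Continuous fun x : (C(unitInterval, ℂ) × ℝ) × unitInterval =>
      (max x.1.2 (1/2)) ^ (-(4/7) : ℝ) := by
    refine Continuous.rpow_const (by fun_prop) fun x => Or.inl ?_
    have : (0 : ℝ) < max x.1.2 (1/2) := lt_of_lt_of_le (by norm_num) (le_max_right _ _)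
    exact this.ne'
  have h2 : Continuous fun x : (C(unitInterval, ℂ) × ℝ) × unitInterval =>
      (Set.projIcc 0 1 zero_le_one x.1.2 : unitInterval) * x.2 :=
    ((continuous_projIcc).comp (by fun_prop)).mul continuous_snd
  have h3 : Continuous fun x : (C(unitInterval, ℂ) × ℝ) × unitInterval =>
      x.1.1 (Set.projIcc 0 1 zero_le_one x.1.2 * x.2) :=
    (continuous_fst.comp continuous_fst).eval h2
  exact (Complex.continuous_ofReal.comp h1).mul h3

theorem gS_one (f : C(unitInterval, ℂ)) : gS (f, 1) = f := by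
  ext s
  show ((((max (1:ℝ) (1/2)) ^ (-(4/7) : ℝ) : ℝ)) : ℂ) *
    f (Set.projIcc 0 1 zero_le_one 1 * s) = f s
  rw [max_eq_left (by norm_num), Real.one_rpow, Complex.ofReal_one, one_mul, Set.projIcc_right]
  congr 1
  exact one_mul s

theorem scl_cont (c : unitInterval) : Continuous (scl c) := by
  refine ContinuousMap.continuous_of_continuous_uncurry _ ?_
  show Continuous fun x : C(unitInterval, ℂ) × unitInterval =>
    (((c : ℝ) ^ (-(4/7) : ℝ) : ℝ) : ℂ) * x.1 (c * x.2)
  have h2 : Continuous fun x : C(unitInterval, ℂ) × unitInterval => c * x.2 := by fun_prop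
  exact continuous_const.mul (continuous_fst.eval h2)

theorem uc_mul (x y : unitInterval) : ((x * y : unitInterval) : ℝ) = x * y := rfl

/-- The unscaled piecewise linear path. -/
noncomputable def Wp (q : ℕ → ℂ) (M : ℕ) (x : ℝ) : ℂ :=
  q 0 + ∑ k ∈ Finset.range M, ((clamp (x - k) : ℝ) : ℂ) * (q (k + 1) - q k)

theorem Wp_ext (q : ℕ → ℂ) {N M : ℕ} (h : N ≤ M) {x : ℝ} (hx : x ≤ N) : Wp q M x = Wp q N x := by
  unfold Wp
  congr 1
  symm
  refine Finset.sum_subset (Finset.range_mono h) fun k _ hk => ?_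
  have h1 : N ≤ k := by
    rw [Finset.mem_range] at hk
    exact not_lt.1 hk
  have h2 : (N : ℝ) ≤ k := by exact_mod_cast h1
  rw [pl_clamp_zero (by linarith)]
  simp

theorem pl_scale (N : ℕ) (κ : ℂ) (q : ℕ → ℂ) (s : unitInterval) :
    pl N (fun k => κ * q k) s = κ * Wp q N ((s : ℝ) * N) := by
  rw [pl_apply', Wp, mul_add, Finset.mul_sum]
  congr 1
  refine Finset.sum_congr rfl fun k _ => ?_
  ring

theorem scl_curve {c : unitInterval} {n m : ℕ} (hc : 0 < c) (hn : 0 < n) (hnm : n ≤ m)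
    (hm : (c : ℝ) * m ≤ n) (ha : 1 / 2 ≤ (c : ℝ) * m / n) (ω : H984H.Conf) :
    scl c (H984H.curve m ω) = gS (H984H.curve n ω, (c : ℝ) * m / n) := by
  have hn' : (0 : ℝ) < n := by exact_mod_cast hn
  have hm' : (0 : ℝ) < m := by exact_mod_cast (hn.trans_le hnm)
  have hc' : (0 : ℝ) < c := hc
  have ha1 : (c : ℝ) * m / n ≤ 1 := by rw [div_le_one hn']; exact hm
  have ha0 : (0 : ℝ) ≤ (c : ℝ) * m / n := by positivity
  ext s
  show (((c : ℝ) ^ (-(4/7) : ℝ) : ℝ) : ℂ) * H984H.curve m ω (c * s) =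
    ((((max ((c : ℝ) * m / n) (1/2)) ^ (-(4/7) : ℝ) : ℝ)) : ℂ) *
      H984H.curve n ω (Set.projIcc 0 1 zero_le_one ((c : ℝ) * m / n) * s)
  rw [max_eq_left ha]
  unfold H984H.curve
  rw [pl_scale, pl_scale]
  have e1 : ((Set.projIcc 0 1 zero_le_one ((c : ℝ) * m / n) * s : unitInterval) : ℝ) * n =
      (c : ℝ) * s * m := by
    have h1 : ((Set.projIcc 0 1 zero_le_one ((c : ℝ) * m / n) : unitInterval) : ℝ) =
        (c : ℝ) * m / n := by
      rw [Set.projIcc_of_mem zero_le_one ⟨ha0, ha1⟩]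
    rw [uc_mul, h1]
    field_simp
  have e2 : ((c * s : unitInterval) : ℝ) * m = (c : ℝ) * s * m := by
    rw [uc_mul]
  rw [e1, e2]
  have e3 : Wp (H984H.gam ω) m ((c : ℝ) * s * m) = Wp (H984H.gam ω) n ((c : ℝ) * s * m) := by
    refine Wp_ext _ hnm ?_
    have h2 : (s : ℝ) ≤ 1 := s.2.2
    nlinarith [mul_pos hc' hm']
  rw [e3, ← mul_assoc, ← mul_assoc, ← Complex.ofReal_mul, ← Complex.ofReal_mul]
  congr 2
  rw [← Real.mul_rpow hc'.le hm'.le, ← Real.mul_rpow ha0 hn'.le]
  congr 1
  field_simp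

theorem t_scl : S_SCL := by
  intro μ hμ c hc
  have hc' : (0 : ℝ) < c := hc
  have hc1 : (c : ℝ) ≤ 1 := c.2.2
  let m : ℕ → ℕ := fun n => ⌊(n : ℝ) / c⌋₊
  let a : ℕ → ℝ := fun n => (c : ℝ) * m n / n
  have hm1 : ∀ n : ℕ, (m n : ℝ) ≤ (n : ℝ) / c := fun n => Nat.floor_le (by positivity)
  have hm2 : ∀ n : ℕ, (n : ℝ) / c < m n + 1 := fun n => Nat.lt_floor_add_one _
  have hnm : ∀ n : ℕ, n ≤ m n := by
    intro n
    refine Nat.le_floor ?_
    rw [le_div_iff₀ hc']
    have : (0 : ℝ) ≤ n := Nat.cast_nonneg n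
    nlinarith
  have hmt : Tendsto m atTop atTop := tendsto_atTop_mono hnm tendsto_id
  have hcm : ∀ n : ℕ, (c : ℝ) * m n ≤ n := by
    intro n
    have := hm1 n
    rw [le_div_iff₀ hc'] at this
    linarith
  have ha : Tendsto a atTop (𝓝 1) := by
    have h1 : Tendsto (fun n : ℕ => 1 - (c : ℝ) / n) atTop (𝓝 (1 - 0)) :=
      tendsto_const_nhds.sub (tendsto_const_div_atTop_nhds_zero_nat (c : ℝ))
    rw [sub_zero] at h1
    refine tendsto_of_tendsto_of_tendsto_of_le_of_le' h1 tendsto_const_nhds ?_ ?_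
    · filter_upwards [eventually_gt_atTop 0] with n hn
      have hn' : (0 : ℝ) < n := by exact_mod_cast hn
      show 1 - (c : ℝ) / n ≤ (c : ℝ) * m n / n
      have h2 := hm2 n
      rw [div_lt_iff₀ hc'] at h2
      have e : 1 - (c : ℝ) / n = (n - c) / n := by field_simp
      rw [e]
      refine div_le_div_of_nonneg_right ?_ hn'.le
      linarith
    · filter_upwards [eventually_gt_atTop 0] with n hn
      have hn' : (0 : ℝ) < n := by exact_mod_cast hn
      show (c : ℝ) * m n / n ≤ 1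
      rw [div_le_one hn']
      exact hcm n
  have hX : TendstoInDistribution (fun n => H984H.curve n) atTop (id : C(unitInterval, ℂ) → _)
      (fun _ => H984H.perc) (μ : Measure C(unitInterval, ℂ)) := by
    refine ⟨fun n => (H984H.curve_meas n).aemeasurable, aemeasurable_id, ?_⟩
    have e : (⟨(μ : Measure C(unitInterval, ℂ)).map id,
        Measure.isProbabilityMeasure_map aemeasurable_id⟩ :
        ProbabilityMeasure C(unitInterval, ℂ)) = μ := by
      apply Subtype.ext
      exact Measure.map_id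
    rw [e]
    exact hμ
  have hXm : TendstoInDistribution (fun n => H984H.curve (m n)) atTop
      (id : C(unitInterval, ℂ) → _) (fun _ => H984H.perc) (μ : Measure C(unitInterval, ℂ)) :=
    ⟨fun n => (H984H.curve_meas (m n)).aemeasurable, aemeasurable_id, hX.tendsto.comp hmt⟩
  have hY : TendstoInMeasure H984H.perc (fun n (_ : H984H.Conf) => a n) atTop (fun _ => (1 : ℝ)) := by
    refine tendstoInMeasure_of_tendsto_ae (fun n => aestronglyMeasurable_const) ?_
    exact Eventually.of_forall fun _ => ha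
  have h1 := hX.continuous_comp_prodMk_of_tendstoInMeasure_const gS_cont hY
    (fun n => aemeasurable_const)
  have h2 := hXm.continuous_comp (scl_cont c)
  have hev : ∀ᶠ n in atTop, (fun ω => gS (H984H.curve n ω, a n)) =
      scl c ∘ H984H.curve (m n) := by
    filter_upwards [eventually_gt_atTop 0, ha.eventually (eventually_ge_nhds
      (show (1/2 : ℝ) < 1 by norm_num))] with n hn hn2
    funext ω
    exact (scl_curve hc hn (hnm n) (hcm n) hn2 ω).symm
  have h4 := tendsto_nhds_unique_of_eventuallyEq h2.tendsto h1.tendsto (by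
    filter_upwards [hev] with n hn
    apply Subtype.ext
    show H984H.perc.map (scl c ∘ H984H.curve (m n)) =
      H984H.perc.map (fun ω => gS (H984H.curve n ω, a n))
    rw [hn])
  have h5 := congrArg (fun ν : ProbabilityMeasure C(unitInterval, ℂ) =>
    (ν : Measure C(unitInterval, ℂ))) h4
  have e1 : (fun f : C(unitInterval, ℂ) => gS (id f, 1)) = id := funext fun f => gS_one f
  have h6 : (μ : Measure C(unitInterval, ℂ)).map (scl c ∘ id) =
      (μ : Measure C(unitInterval, ℂ)).map (fun f : C(unitInterval, ℂ) => gS (id f, 1)) := h5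
  rw [e1, Measure.map_id] at h6
  exact h6

end Pool.Agent.L0h83.HT
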