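import Pool.Agent.L0h83.HT.Arc

/-! # HT, module ZTHK (helper83) -/

set_option autoImplicit false

namespace Pool.Agent.L0h83.HT

open Pool.Agent.L0h89.HT H984N MeasureTheory Filter Topology
open scoped ENNReal NNReal

/-- the time spent by `f` near a point of the curve -/
theorem time_eq (hT : S_TAU) {f : C(unitInterval, ℂ)} {p : X} (hR : Rev 1 f p)
    (u : unitInterval) (r : ℝ) :
    volume {v : unitInterval | dist (f v) (f u) ≤ r} = ENNReal.ofReal p.2 *
      volume ({v : unitInterval | dist (p.1 v) (p.1 (tau p.2 u)) ≤ r} ∩ Set.Icc (tau p.2 1) 1) := by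
  obtain ⟨hp0, hp1⟩ := rev_one hR
  have hA : MeasurableSet {v : unitInterval | dist (p.1 v) (p.1 (tau p.2 u)) ≤ r} :=
    (isClosed_le (by fun_prop) continuous_const).measurableSet
  have e : {v : unitInterval | dist (f v) (f u) ≤ r} =
      tau p.2 ⁻¹' {v : unitInterval | dist (p.1 v) (p.1 (tau p.2 u)) ≤ r} := by
    ext v
    simp only [Set.mem_ofPred_eq, Set.mem_preimage]
    rw [dist_eq1 hT hR]
  rw [e, vol_pre hT hp1 hA]

theorem t_thk (hT : S_TAU) : T_Thk := by
  intro F θ₀ f p hR hdb hF h θ hθ hθ0 s t hst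
  obtain ⟨hp0, hp1⟩ := rev_one hR
  obtain ⟨hlo, hup⟩ := h θ hθ hθ0 (tau p.2 t) (tau p.2 s) ((tau_lt hT hp1 _ _).2 hst)
  set A : Set unitInterval :=
    {u | u ∈ Set.Icc (tau p.2 t) (tau p.2 s) ∧ Thick θ p (p.1 u)} with hAdef
  set B : Set unitInterval := {u | u ∈ Set.Icc s t ∧ Thick θ (f, 1) (f u)} with hBdef
  have hdimB : dimH (tau p.2 '' B) = dimH B := (hT p.2 hp1).2.2.2.2.2 B
  have hBA : tau p.2 '' B ⊆ A := by
    rintro _ ⟨u, ⟨hu1, hu2⟩, rfl⟩
    refine ⟨⟨(tau_le hT hp1 _ _).2 hu1.2, (tau_le hT hp1 _ _).2 hu1.1⟩, ?_⟩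
    refine Frequently.mono hu2 fun r hr => hr.trans ?_
    show (1 : ℝ) * (volume {v : unitInterval | dist (f v) (f u) ≤ r}).toReal ≤ _
    rw [time_eq hT hR, one_mul, ENNReal.toReal_mul, ENNReal.toReal_ofReal hp0.le]
    refine mul_le_mul_of_nonneg_left ?_ hp0.le
    exact ENNReal.toReal_mono (measure_ne_top _ _) (measure_mono Set.inter_subset_left)
  refine ⟨?_, ?_⟩
  · have hsub : A ⊆ tau p.2 '' B ∪ (dbt p.1 ∪ {tau p.2 1}) := by
      rintro w ⟨hw1, hw2⟩
      by_cases hd : w ∈ dbt p.1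
      · exact Or.inr (Or.inl hd)
      by_cases he : w = tau p.2 1
      · exact Or.inr (Or.inr he)
      left
      have hw3 : w ∈ tau p.2 '' Set.Icc s t := by
        rw [tau_img hT hp1]
        exact hw1
      obtain ⟨u, hu, rfl⟩ := hw3
      refine ⟨u, ⟨hu, ?_⟩, rfl⟩
      have hlt : tau p.2 1 < tau p.2 u := lt_of_le_of_ne (tau_one_le hT hp1 u) (Ne.symm he)
      -- the compact part is far
      have hfar : ∃ δ : ℝ, 0 < δ ∧ ∀ v : unitInterval, v ≤ tau p.2 1 →
          δ ≤ dist (p.1 v) (p.1 (tau p.2 u)) := by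
        have hcomp : IsCompact (Set.Iic (tau p.2 1) : Set unitInterval) := isClosed_Iic.isCompact
        have hne : (Set.Iic (tau p.2 1) : Set unitInterval).Nonempty := ⟨tau p.2 1, Set.mem_Iic.2 le_rfl⟩
        obtain ⟨v₀, hv₀, hmin⟩ := hcomp.exists_isMinOn hne
          (f := fun v => dist (p.1 v) (p.1 (tau p.2 u))) (by fun_prop)
        refine ⟨dist (p.1 v₀) (p.1 (tau p.2 u)), ?_, fun v hv => hmin hv⟩
        rw [dist_pos]
        intro h0
        apply hd
        refine ⟨v₀, ?_, h0⟩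
        intro h1
        have h2 : v₀ ≤ tau p.2 1 := hv₀
        rw [h1] at h2
        exact absurd hlt (not_lt.2 h2)
      obtain ⟨δ, hδ, hfar⟩ := hfar
      have hev : ∀ᶠ r : ℝ in 𝓝[>] 0, r < δ := mem_nhdsWithin_of_mem_nhds (Iio_mem_nhds hδ)
      refine (hw2.and_eventually hev).mono fun r hr => hr.1.trans ?_
      show p.2 * (volume {v : unitInterval | dist (p.1 v) (p.1 (tau p.2 u)) ≤ r}).toReal ≤
        (1 : ℝ) * (volume {v : unitInterval | dist (f v) (f u) ≤ r}).toReal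
      rw [time_eq hT hR, one_mul, ENNReal.toReal_mul, ENNReal.toReal_ofReal hp0.le]
      have e : {v : unitInterval | dist (p.1 v) (p.1 (tau p.2 u)) ≤ r} ∩ Set.Icc (tau p.2 1) 1 =
          {v : unitInterval | dist (p.1 v) (p.1 (tau p.2 u)) ≤ r} := by
        refine Set.inter_eq_left.2 fun v hv => ⟨?_, v.2.2⟩
        by_contra hcon
        have h3 := hfar v (le_of_lt (not_le.1 hcon))
        have h4 : dist (p.1 v) (p.1 (tau p.2 u)) ≤ r := hv
        linarith [hr.2]
      rw [e]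
    have h1 : dimH A ≤ max (dimH B) (3/7) := by
      refine (dimH_mono hsub).trans ?_
      rw [dimH_union, dimH_union, hdimB, dimH_singleton]
      refine max_le (le_max_left _ _) (max_le (hdb.trans (le_max_right _ _)) ?_)
      exact bot_le
    have h2 : (F θ).1 ≤ max (dimH B) (3/7) := hlo.trans h1
    rcases le_max_iff.1 h2 with h3 | h3
    · exact h3
    · exact absurd (hF θ hθ hθ0) (not_lt.2 h3)
  · rw [← hdimB]
    exact (dimH_mono hBA).trans hup

end Pool.Agent.L0h83.HT
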