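import Pool.Agent.L0h83.HT.Base

/-! # HT, module ZVAR (helper83) -/

set_option autoImplicit false

namespace Pool.Agent.L0h83.HT

open Pool.Agent.L0h89.HT H984N MeasureTheory Filter Topology
open scoped ENNReal NNReal

theorem sum_rev (g : ℕ → ℂ) (n : ℕ) :
    ∑ i ∈ Finset.range n, psi (dist (g (n - i)) (g (n - (i + 1)))) =
      ∑ i ∈ Finset.range n, psi (dist (g i) (g (i + 1))) := by
  rw [← Finset.sum_range_reflect (fun i => psi (dist (g i) (g (i + 1)))) n]
  refine Finset.sum_congr rfl fun i hi => ?_
  have hi' := Finset.mem_range.1 hi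
  have e1 : n - 1 - i = n - (i + 1) := by omega
  have e2 : n - (i + 1) + 1 = n - i := by omega
  rw [e1, e2, dist_comm]

theorem tau_sub {L : ℝ} (hT : S_TAU) (hL : 1 ≤ L) (s t : unitInterval) :
    (tau L s : ℝ) - tau L t = (t - s) / L := by
  have h := (hT L hL).1
  rw [h, h]
  ring

theorem psiv (hT : S_TAU) {f : C(unitInterval, ℂ)} {p : X} (hR : Rev 1 f p) (s t : unitInterval) :
    psiVariation f s t = psiVariation p.1 (tau p.2 t) (tau p.2 s) := by
  obtain ⟨hp0, hp1⟩ := rev_one hR
  apply le_antisymm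
  · refine le_iInf₂ fun η hη => ?_
    refine (iInf₂_le (p.2 * η) (mul_pos hp0 hη)).trans ?_
    refine iSup_le fun n => iSup_le fun τ => iSup_le fun h => ?_
    obtain ⟨h1, h2, h3, h4⟩ := h
    refine le_iSup_of_le n (le_iSup_of_le (fun i => tau p.2 (τ (n - i))) (le_iSup_of_le ?_ ?_))
    · refine ⟨?_, ?_, ?_, ?_⟩
      · intro i j hij
        exact (tau_le hT hp1 _ _).2 (h1 (by omega))
      · simp only [Nat.sub_zero, h3]
      · simp only [Nat.sub_self, h2]
      · intro i hi
        dsimp only
        rw [tau_sub hT hp1]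
        have h5 := h4 (n - (i + 1)) (by omega)
        have e2 : n - (i + 1) + 1 = n - i := by omega
        rw [e2] at h5
        rw [div_le_iff₀ hp0]
        linarith
    · refine le_of_eq ?_
      congr 1
      rw [← sum_rev (fun i => f (τ i))]
      refine Finset.sum_congr rfl fun i _ => ?_
      rw [dist_eq1 hT hR]
  · refine le_iInf₂ fun η hη => ?_
    refine (iInf₂_le (η / p.2) (div_pos hη hp0)).trans ?_
    refine iSup_le fun n => iSup_le fun σ => iSup_le fun h => ?_
    obtain ⟨h1, h2, h3, h4⟩ := h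
    have hr : ∀ i, ∃ u, tau p.2 u = σ i := by
      intro i
      have h5 : σ i ∈ Set.range (tau p.2) := by
        rw [(hT p.2 hp1).2.2.1]
        refine ⟨?_, (σ i).2.2⟩
        refine le_trans (tau_one_le hT hp1 t) ?_
        rw [← h2]
        exact h1 (Nat.zero_le i)
      exact h5
    choose g hg using hr
    refine le_iSup_of_le n (le_iSup_of_le (fun i => g (n - i)) (le_iSup_of_le ?_ ?_))
    · refine ⟨?_, ?_, ?_, ?_⟩
      · intro i j hij
        dsimp only
        rw [← tau_le hT hp1, hg, hg]
        exact h1 (by omega)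
      · dsimp only
        apply le_antisymm
        · rw [← tau_le hT hp1, hg, Nat.sub_zero, h3]
        · rw [← tau_le hT hp1, hg, Nat.sub_zero, h3]
      · dsimp only
        apply le_antisymm
        · rw [← tau_le hT hp1, hg, Nat.sub_self, h2]
        · rw [← tau_le hT hp1, hg, Nat.sub_self, h2]
      · intro i hi
        dsimp only
        have h5 := h4 (n - (i + 1)) (by omega)
        have e2 : n - (i + 1) + 1 = n - i := by omega
        rw [e2, ← hg, ← hg, tau_sub hT hp1, div_le_div_iff_of_pos_right hp0] at h5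
        exact h5
    · refine le_of_eq ?_
      congr 1
      rw [← sum_rev (fun i => p.1 (σ i))]
      refine Finset.sum_congr rfl fun i _ => ?_
      rw [dist_eq1 hT hR, hg, hg]

theorem t_var (hT : S_TAU) : T_Var := by
  intro c C f p hc hC hR h s t hst
  obtain ⟨hp0, hp1⟩ := rev_one hR
  have h1 := h (tau p.2 t) (tau p.2 s) ((tau_le hT hp1 _ _).2 hst)
  rw [← psiv hT hR, tau_sub hT hp1] at h1
  have e : p.2 * (((t : ℝ) - s) / p.2) = 1 * ((t : ℝ) - s) := by
    field_simp
  rw [e] at h1
  exact h1

end Pool.Agent.L0h83.HT
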